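import Mathlib

namespace Pool.Agent.Hhelper54.Rebels

/-- `T` is (the arc relation of) a tournament: no loops, and exactly one arc between any two
distinct vertices. -/
def IsTournament {V : Type} (T : V → V → Prop) : Prop :=
  (∀ i, ¬ T i i) ∧ ∀ i j, i ≠ j → (T i j ↔ ¬ T j i)

/-- Some subtournament of `T` is isomorphic to `S`. -/
def Contains {U V : Type} (S : U → U → Prop) (T : V → V → Prop) : Prop :=
  ∃ f : U ↪ V, ∀ i j, S i j ↔ T (f i) (f j)

/-- `T` has a dominating set with at most `c` vertices. -/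
def HasDom {V : Type} (T : V → V → Prop) (c : ℕ) : Prop :=
  ∃ D : Finset V, D.card ≤ c ∧ ∀ v, v ∉ D → ∃ u ∈ D, T u v

/-- `S` is a rebel: the `S`-free tournaments have bounded domination. -/
def IsRebel {U : Type} (S : U → U → Prop) : Prop :=
  ∃ c : ℕ, ∀ (n : ℕ) (T : Fin n → Fin n → Prop), IsTournament T → ¬ Contains S T → HasDom T c

/-- The transitive tournament on `k` vertices. -/
def TT (k : ℕ) : Fin k → Fin k → Prop := fun i j => i < j

/-- The tournament obtained from a cyclic triangle `a → b → c → a` by substituting `A` for `a`,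
`B` for `b` and `C` for `c`. -/
def Tri {U₁ U₂ U₃ : Type} (A : U₁ → U₁ → Prop) (B : U₂ → U₂ → Prop) (C : U₃ → U₃ → Prop) :
    (U₁ ⊕ (U₂ ⊕ U₃)) → (U₁ ⊕ (U₂ ⊕ U₃)) → Prop
  | .inl a, .inl a' => A a a'
  | .inl _, .inr (.inl _) => True
  | .inl _, .inr (.inr _) => False
  | .inr (.inl _), .inl _ => False
  | .inr (.inl b), .inr (.inl b') => B b b'
  | .inr (.inl _), .inr (.inr _) => True
  | .inr (.inr _), .inl _ => True
  | .inr (.inr _), .inr (.inl _) => False
  | .inr (.inr c), .inr (.inr c') => C c c'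

/-- In every partition of the vertex set of `Q` into two parts, the first part contains `S₁` or the
second part contains `S₂`. -/
def Arrows {W U₁ U₂ : Type} (Q : W → W → Prop) (S₁ : U₁ → U₁ → Prop) (S₂ : U₂ → U₂ → Prop) :
    Prop :=
  ∀ Y : Set W, (∃ f : U₁ ↪ W, (∀ i, f i ∈ Y) ∧ ∀ i j, S₁ i j ↔ Q (f i) (f j)) ∨
    (∃ f : U₂ ↪ W, (∀ i, f i ∉ Y) ∧ ∀ i j, S₂ i j ↔ Q (f i) (f j))

/-! ### Relative notions -/

/-- The subtournament of `T` on `W` contains a copy of `S`. -/
def Has {U V : Type} (S : U → U → Prop) (T : V → V → Prop) (W : Set V) : Prop :=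
  ∃ f : U ↪ V, (∀ i, f i ∈ W) ∧ ∀ i j, S i j ↔ T (f i) (f j)

/-- The subtournament of `T` on `W` has a dominating set of at most `c` vertices. -/
def DomIn {V : Type} (T : V → V → Prop) (W : Finset V) (c : ℕ) : Prop :=
  ∃ D : Finset V, D ⊆ W ∧ D.card ≤ c ∧ ∀ v ∈ W, v ∉ D → ∃ u ∈ D, T u v

theorem Has.mono {U V : Type} {S : U → U → Prop} {T : V → V → Prop} {W W' : Set V}
    (h : Has S T W) (hW : W ⊆ W') : Has S T W' := by
  obtain ⟨f, hf, h⟩ := h
  exact ⟨f, fun i => hW (hf i), h⟩

theorem DomIn.mono {V : Type} {T : V → V → Prop} {W : Finset V} {c c' : ℕ}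
    (h : DomIn T W c) (hc : c ≤ c') : DomIn T W c' := by
  obtain ⟨D, h1, h2, h3⟩ := h
  exact ⟨D, h1, h2.trans hc, h3⟩

/-- Rebels in terms of subsets of the vertex set. -/
theorem IsRebel.rel {U : Type} {S : U → U → Prop} (h : IsRebel S) :
    ∃ c : ℕ, ∀ (V : Type) (T : V → V → Prop), IsTournament T → ∀ W : Finset V,
      ¬ Has S T W → DomIn T W c := by
  classical
  obtain ⟨c, hc⟩ := h
  refine ⟨c, fun V T hT W hW => ?_⟩
  let e := W.equivFin
  let T' : Fin W.card → Fin W.card → Prop := fun i j => T (e.symm i).1 (e.symm j).1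
  have hT' : IsTournament T' := by
    refine ⟨fun i => hT.1 _, fun i j hij => hT.2 _ _ fun h => hij ?_⟩
    exact e.symm.injective (Subtype.ext h)
  have hfree : ¬ Contains S T' := by
    rintro ⟨f, hf⟩
    refine hW ⟨⟨fun u => (e.symm (f u)).1, fun u v huv => ?_⟩, fun i => (e.symm (f i)).2, hf⟩
    exact f.injective (e.symm.injective (Subtype.ext huv))
  obtain ⟨D, hD, hdom⟩ := hc _ T' hT' hfree
  refine ⟨D.image (fun i => (e.symm i).1), ?_, Finset.card_image_le.trans hD, ?_⟩
  · intro x hx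
    obtain ⟨i, _, rfl⟩ := Finset.mem_image.1 hx
    exact (e.symm i).2
  · intro v hv hvD
    have h1 : e ⟨v, hv⟩ ∉ D := by
      intro h
      apply hvD
      refine Finset.mem_image.2 ⟨_, h, by simp⟩
    obtain ⟨u, hu, huv⟩ := hdom _ h1
    refine ⟨(e.symm u).1, Finset.mem_image.2 ⟨u, hu, rfl⟩, ?_⟩
    simpa [T'] using huv

/-- A tournament contained in a rebel is a rebel. -/
theorem IsRebel.of_contains {U U' : Type} {S : U → U → Prop} {S' : U' → U' → Prop}
    (h : Contains S S') (h' : IsRebel S') : IsRebel S := by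
  obtain ⟨c, hc⟩ := h'
  refine ⟨c, fun n T hT hS => hc n T hT ?_⟩
  rintro ⟨g, hg⟩
  obtain ⟨f, hf⟩ := h
  exact hS ⟨f.trans g, fun i j => by rw [hf, hg]; rfl⟩

theorem IsTournament.asymm {V : Type} {T : V → V → Prop} (hT : IsTournament T) {a b : V}
    (h : T a b) : ¬ T b a := by
  by_cases hab : a = b
  · subst hab
    exact hT.1 _
  · exact (hT.2 _ _ hab).1 h

theorem IsTournament.of_not {V : Type} {T : V → V → Prop} (hT : IsTournament T) {a b : V}
    (hab : a ≠ b) (h : ¬ T a b) : T b a := by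
  by_contra h'
  exact h ((hT.2 _ _ hab).2 h')

theorem IsTournament.ne {V : Type} {T : V → V → Prop} (hT : IsTournament T) {a b : V}
    (h : T a b) : a ≠ b := by
  rintro rfl
  exact hT.1 _ h

/-- The common in-neighbourhood of `X`. -/
noncomputable def inN {V : Type} [Fintype V] (T : V → V → Prop) (X : Finset V) : Finset V := by
  classical exact Finset.univ.filter fun z => z ∉ X ∧ ∀ x ∈ X, T z x

theorem mem_inN {V : Type} [Fintype V] {T : V → V → Prop} {X : Finset V} {z : V} :
    z ∈ inN T X ↔ z ∉ X ∧ ∀ x ∈ X, T z x := by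
  classical
  simp [inN]

/-- If the common in-neighbourhood of `X` within `W` has a small dominating set, so has `W`. -/
theorem domIn_of_inN {V : Type} [Fintype V] [DecidableEq V] {T : V → V → Prop}
    (hT : IsTournament T) {W X : Finset V} (hXW : X ⊆ W) {c : ℕ} (h : DomIn T (W ∩ inN T X) c) :
    DomIn T W (c + X.card) := by
  obtain ⟨D, h1, h2, h3⟩ := h
  refine ⟨D ∪ X, ?_, ?_, ?_⟩
  · intro x hx
    rcases Finset.mem_union.1 hx with hx | hx
    · exact (Finset.mem_inter.1 (h1 hx)).1
    · exact hXW hx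
  · exact (Finset.card_union_le _ _).trans (by omega)
  · intro v hvW hv
    have hvD : v ∉ D := fun h => hv (Finset.mem_union_left _ h)
    have hvX : v ∉ X := fun h => hv (Finset.mem_union_right _ h)
    by_cases hvI : ∀ x ∈ X, T v x
    · obtain ⟨u, hu, huv⟩ := h3 v (Finset.mem_inter.2 ⟨hvW, mem_inN.2 ⟨hvX, hvI⟩⟩) hvD
      exact ⟨u, Finset.mem_union_left _ hu, huv⟩
    · push Not at hvI
      obtain ⟨x, hx, hvx⟩ := hvI
      exact ⟨x, Finset.mem_union_right _ hx, hT.of_not (fun h => hvX (h ▸ hx)) hvx⟩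

/-- Every set of at least `2 ^ k` vertices of a tournament contains a transitive tournament on `k`
vertices. -/
theorem has_TT {V : Type} [DecidableEq V] {T : V → V → Prop} (hT : IsTournament T) :
    ∀ (k : ℕ) (Z : Finset V), 2 ^ k ≤ Z.card → ∃ l : List V, l.length = k ∧ (∀ x ∈ l, x ∈ Z) ∧
      l.Pairwise T := by
  classical
  intro k
  induction k with
  | zero => intro Z _; exact ⟨[], rfl, by simp, List.Pairwise.nil⟩
  | succ k ih =>
    intro Z hZ
    have hne : Z.Nonempty := by
      rw [← Finset.card_pos]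
      exact lt_of_lt_of_le (by positivity) hZ
    obtain ⟨v, hv⟩ := hne
    have hsplit : (Z.filter fun z => T v z).card + (Z.filter fun z => T z v).card + 1 ≥ Z.card := by
      have h1 : Z ⊆ ((Z.filter fun z => T v z) ∪ (Z.filter fun z => T z v)) ∪ {v} := by
        intro z hz
        by_cases hzv : z = v
        · simp [hzv]
        · by_cases h : T v z
          · simp [hz, h]
          · have := hT.of_not (Ne.symm hzv) h
            simp [hz, this]
      refine (Finset.card_le_card h1).trans ?_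
      refine (Finset.card_union_le _ _).trans ?_
      have := Finset.card_union_le (Z.filter fun z => T v z) (Z.filter fun z => T z v)
      simp
      omega
    have h2 : 2 ^ (k + 1) = 2 ^ k + 2 ^ k := by ring
    by_cases hbig : 2 ^ k ≤ (Z.filter fun z => T v z).card
    · obtain ⟨l, hl, hlZ, hlT⟩ := ih _ hbig
      refine ⟨v :: l, by simp [hl], ?_, ?_⟩
      · intro x hx
        rcases List.mem_cons.1 hx with rfl | hx
        · exact hv
        · exact (Finset.mem_filter.1 (hlZ x hx)).1
      · exact List.Pairwise.cons (fun x hx => (Finset.mem_filter.1 (hlZ x hx)).2) hlT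
    · have hbig' : 2 ^ k ≤ (Z.filter fun z => T z v).card := by omega
      obtain ⟨l, hl, hlZ, hlT⟩ := ih _ hbig'
      refine ⟨l ++ [v], by simp [hl], ?_, ?_⟩
      · intro x hx
        rcases List.mem_append.1 hx with hx | hx
        · exact (Finset.mem_filter.1 (hlZ x hx)).1
        · simp at hx; subst hx; exact hv
      · rw [List.pairwise_append]
        refine ⟨hlT, by simp, ?_⟩
        intro a ha b hb
        simp at hb
        subst hb
        exact (Finset.mem_filter.1 (hlZ a ha)).2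

/-- `has_TT` with an embedding. -/
theorem has_TT' {V : Type} [DecidableEq V] {T : V → V → Prop} (hT : IsTournament T)
    (k : ℕ) (Z : Finset V) (hZ : 2 ^ k ≤ Z.card) : Has (TT k) T (Z : Set V) := by
  obtain ⟨l, rfl, hlZ, hl⟩ := has_TT hT k Z hZ
  have hlt : ∀ i j : Fin l.length, i < j → T (l.get i) (l.get j) := by
    intro i j hij
    exact List.pairwise_iff_get.1 hl i j hij
  have hinj : Function.Injective l.get := by
    intro i j hij
    rcases lt_trichotomy i j with h | h | h
    · exact absurd (hlt i j h) (by rw [hij]; exact hT.1 _)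
    · exact h
    · exact absurd (hlt j i h) (by rw [hij]; exact hT.1 _)
  refine ⟨⟨l.get, hinj⟩, fun i => hlZ _ (List.get_mem l i), fun i j => ⟨hlt i j, fun h => ?_⟩⟩
  by_contra hij
  rcases lt_trichotomy i j with h' | h' | h'
  · exact hij h'
  · subst h'; exact hT.1 _ h
  · exact hT.asymm h (hlt j i h')

/-- Large domination number forces a bounded size subtournament which arrows `(S₁, S₂)`. -/
def Forced {U₁ U₂ : Type} (S₁ : U₁ → U₁ → Prop) (S₂ : U₂ → U₂ → Prop) : Prop :=
  ∃ N c : ℕ, ∀ (V : Type) [Fintype V] (T : V → V → Prop), IsTournament T → ∀ W : Finset V,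
    ¬ DomIn T W c → ∃ X : Finset V, X ⊆ W ∧ X.card ≤ N ∧
      ∀ Y : Set V, Has S₁ T ((X : Set V) ∩ Y) ∨ Has S₂ T ((X : Set V) \ Y)

/-- The key theorem: if large domination number forces bounded size subtournaments which arrow
`(S₁, S₂)`, then `Δ(TT k, S₁, S₂)` is a rebel for every `k`. -/
theorem rebel_of_forced {U₁ U₂ : Type} [Fintype U₁] [Fintype U₂] [Nonempty U₁] [Nonempty U₂]
    {S₁ : U₁ → U₁ → Prop} {S₂ : U₂ → U₂ → Prop} (h : Forced S₁ S₂) (k : ℕ) :
    IsRebel (Tri (TT k) S₁ S₂) := by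
  classical
  obtain ⟨N, c, h⟩ := h
  set M : ℕ := N ^ Fintype.card U₁ * N ^ Fintype.card U₂ with hM
  set m : ℕ := M * 2 ^ k + 1 with hm
  refine ⟨c + N + m, fun n T hT hfree => ?_⟩
  by_contra hdom
  have hdomIn : ∀ c', c' ≤ c + N + m → ¬ DomIn T Finset.univ c' := by
    rintro c' hc' ⟨D, _, h2, h3⟩
    exact hdom ⟨D, h2.trans hc', fun v hv => h3 v (Finset.mem_univ _) hv⟩
  -- the arrowing sets
  let P : Finset (Fin n) → Prop := fun X => X.card ≤ N ∧
      ∀ Y : Set (Fin n), Has S₁ T ((X : Set (Fin n)) ∩ Y) ∨ Has S₂ T ((X : Set (Fin n)) \ Y)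
  let J : Finset (Fin n) → Finset (Fin n) := fun X =>
    Finset.univ.filter fun z => z ∉ X ∧ Has S₁ T {x | x ∈ X ∧ T z x}
  obtain ⟨X₀, -, hX₀⟩ := h (Fin n) T hT Finset.univ (hdomIn c (by omega))
  obtain ⟨X, hXP, hXmin⟩ : ∃ X, P X ∧ ∀ X', P X' → (J X).card ≤ (J X').card := by
    have hne : (Finset.univ.filter P).Nonempty := ⟨X₀, by simp [P]; exact hX₀⟩
    obtain ⟨X, hX, hmin⟩ := Finset.exists_min_image _ (fun X => (J X).card) hne
    exact ⟨X, (Finset.mem_filter.1 hX).2, fun X' hX' =>
      hmin X' (Finset.mem_filter.2 ⟨Finset.mem_univ _, hX'⟩)⟩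
  obtain ⟨hXN, hXarr⟩ := hXP
  -- choose `m` vertices in the common in-neighbourhood of `X`
  have hIX : ∀ (Z : Finset (Fin n)) (c' : ℕ), c' + Z.card ≤ c + N + m →
      ¬ DomIn T (inN T Z) c' := by
    intro Z c' hc' hd
    refine hdomIn _ hc' (domIn_of_inN hT (Finset.subset_univ Z) ?_)
    simpa using hd
  have hmI : m ≤ (inN T X).card := by
    by_contra hlt
    refine hIX X m (by omega) ⟨inN T X, subset_rfl, by omega, fun v hv hv' => absurd hv hv'⟩
  obtain ⟨W, hWI, hWm⟩ := Finset.exists_subset_card_eq hmI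
  obtain ⟨X', hX'I, hX'N, hX'arr⟩ := h (Fin n) T hT (inN T (X ∪ W)) (hIX (X ∪ W) c (by
    have := Finset.card_union_le X W
    omega))
  have hX'mem : ∀ x' ∈ X', x' ∉ X ∪ W ∧ ∀ x ∈ X ∪ W, T x' x := fun x' hx' => mem_inN.1 (hX'I hx')
  -- `W` is in `J X` but not in `J X'`
  have hWJ : W ⊆ J X \ J X' := by
    intro w hw
    have hwI := mem_inN.1 (hWI hw)
    refine Finset.mem_sdiff.2 ⟨Finset.mem_filter.2 ⟨Finset.mem_univ _, hwI.1, ?_⟩, ?_⟩
    · rcases hXarr Set.univ with h1 | h2
      · exact h1.mono (fun x hx => ⟨hx.1, hwI.2 x hx.1⟩)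
      · obtain ⟨f, hf, -⟩ := h2
        exact absurd (Set.mem_univ _) (hf (Classical.arbitrary U₂)).2
    · intro hwJ
      obtain ⟨-, -, f, hf, -⟩ := Finset.mem_filter.1 hwJ
      have h1 := hf (Classical.arbitrary U₁)
      exact hT.asymm h1.2 ((hX'mem _ h1.1).2 w (Finset.mem_union_right _ hw))
  have hcard : m ≤ (J X' \ J X).card := by
    have h1 := hXmin X' ⟨hX'N, hX'arr⟩
    have h2 := Finset.card_sdiff_add_card_inter (J X) (J X')
    have h3 := Finset.card_sdiff_add_card_inter (J X') (J X)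
    rw [Finset.inter_comm] at h3
    have h4 := Finset.card_le_card hWJ
    omega
  -- for the new vertices we get copies of `S₁` in `X'` and of `S₂` in `X`
  have hkey : ∀ z ∈ J X' \ J X, ∃ p : (U₁ → X') × (U₂ → X),
      ((∀ i, T z (p.1 i)) ∧ ∀ i j, S₁ i j ↔ T (p.1 i) (p.1 j)) ∧
      ((∀ i, T (p.2 i) z) ∧ ∀ i j, S₂ i j ↔ T (p.2 i) (p.2 j)) ∧
      Function.Injective p.1 ∧ Function.Injective p.2 := by
    intro z hz
    obtain ⟨hz1, hz2⟩ := Finset.mem_sdiff.1 hz
    obtain ⟨-, hzX', f, hf, hf'⟩ := Finset.mem_filter.1 hz1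
    have hzX : z ∉ X := by
      intro hzX
      have h1 := hf (Classical.arbitrary U₁)
      exact hT.asymm h1.2 ((hX'mem _ h1.1).2 z (Finset.mem_union_left _ hzX))
    have hno : ¬ Has S₁ T {x | x ∈ X ∧ T z x} := fun hh =>
      hz2 (Finset.mem_filter.2 ⟨Finset.mem_univ _, hzX, hh⟩)
    rcases hXarr {x | T z x} with h1 | h2
    · exact absurd (h1.mono (W' := {x | x ∈ X ∧ T z x}) fun x hx => ⟨hx.1, hx.2⟩) hno
    · obtain ⟨g, hg, hg'⟩ := h2
      refine ⟨⟨fun i => ⟨f i, (hf i).1⟩, fun i => ⟨g i, (hg i).1⟩⟩, ⟨fun i => (hf i).2, hf'⟩,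
        ⟨fun i => ?_, hg'⟩, ?_, ?_⟩
      · refine hT.of_not ?_ (hg i).2
        intro hh
        exact hzX (by rw [hh]; exact (hg i).1)
      · intro i j hij
        exact f.injective (congrArg Subtype.val hij)
      · intro i j hij
        exact g.injective (congrArg Subtype.val hij)
  have hnonempty : Nonempty ((U₁ → X') × (U₂ → X)) := by
    obtain ⟨z, hz⟩ := Finset.card_pos.1 (show 0 < (J X' \ J X).card by omega)
    exact ⟨(hkey z hz).choose⟩
  choose! F hF using hkey
  have hpig : ∃ y ∈ (Finset.univ : Finset ((U₁ → X') × (U₂ → X))),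
      2 ^ k < ((J X' \ J X).filter fun z => F z = y).card := by
    refine Finset.exists_lt_card_fiber_of_mul_lt_card_of_maps_to (fun z _ => Finset.mem_univ _) ?_
    refine lt_of_lt_of_le ?_ hcard
    rw [hm]
    have h1 : (Finset.univ : Finset ((U₁ → X') × (U₂ → X))).card ≤ M := by
      rw [Finset.card_univ, Fintype.card_prod, Fintype.card_fun, Fintype.card_fun,
        Fintype.card_coe, Fintype.card_coe, hM]
      exact Nat.mul_le_mul (Nat.pow_le_pow_left hX'N _) (Nat.pow_le_pow_left hXN _)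
    have h2 := Nat.mul_le_mul_right (2 ^ k) h1
    omega
  obtain ⟨⟨g₁, g₂⟩, -, hbig⟩ := hpig
  obtain ⟨f, hf, hf'⟩ := has_TT' hT k _ hbig.le
  have hfz : ∀ i, f i ∈ J X' \ J X ∧ F (f i) = (g₁, g₂) := by
    intro i
    have := hf i
    simpa using this
  have hz0 : ∃ z, z ∈ J X' \ J X ∧ F z = (g₁, g₂) := by
    have : 0 < ((J X' \ J X).filter fun z => F z = (g₁, g₂)).card := lt_of_le_of_lt (Nat.zero_le _) hbig
    obtain ⟨z, hz⟩ := Finset.card_pos.1 this
    exact ⟨z, (Finset.mem_filter.1 hz).1, (Finset.mem_filter.1 hz).2⟩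
  obtain ⟨z0, hz0, hFz0⟩ := hz0
  have hprop := hF z0 hz0
  rw [hFz0] at hprop
  obtain ⟨⟨-, hS₁⟩, ⟨-, hS₂⟩, hi₁, hi₂⟩ := hprop
  simp only at hS₁ hS₂ hi₁ hi₂
  have hzg : ∀ i, (∀ a, T (f i) (g₁ a)) ∧ (∀ b, T (g₂ b) (f i)) := by
    intro i
    have h1 := hF (f i) (hfz i).1
    rw [(hfz i).2] at h1
    exact ⟨h1.1.1, h1.2.1.1⟩
  have hgg : ∀ a b, T (g₁ a) (g₂ b) := fun a b =>
    (hX'mem _ (g₁ a).2).2 _ (Finset.mem_union_left _ (g₂ b).2)
  -- assemble the forbidden tournament
  apply hfree
  let φ : Fin k ⊕ (U₁ ⊕ U₂) → Fin n := fun x => match x with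
    | .inl i => f i
    | .inr (.inl a) => g₁ a
    | .inr (.inr b) => g₂ b
  have hφ : ∀ x y, Tri (TT k) S₁ S₂ x y ↔ T (φ x) (φ y) := by
    rintro (i | a | b) (i' | a' | b')
    · exact hf' i i'
    · simp only [Tri, φ, true_iff]; exact (hzg i).1 a'
    · simp only [Tri, φ, false_iff]; exact hT.asymm ((hzg i).2 b')
    · simp only [Tri, φ, false_iff]; exact hT.asymm ((hzg i').1 a)
    · exact hS₁ a a'
    · simp only [Tri, φ, true_iff]; exact hgg a b'
    · simp only [Tri, φ, true_iff]; exact (hzg i').2 b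
    · simp only [Tri, φ, false_iff]; exact hT.asymm (hgg a' b)
    · exact hS₂ b b'
  have hinj : Function.Injective φ := by
    rintro (i | a | b) (i' | a' | b') hxy
    · rw [f.injective hxy]
    · exact absurd hxy (hT.ne ((hzg i).1 a'))
    · exact absurd hxy.symm (hT.ne ((hzg i).2 b'))
    · exact absurd hxy.symm (hT.ne ((hzg i').1 a))
    · rw [hi₁ (Subtype.ext hxy)]
    · exact absurd hxy (hT.ne (hgg a b'))
    · exact absurd hxy (hT.ne ((hzg i').2 b))
    · exact absurd hxy.symm (hT.ne (hgg a' b))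
    · rw [hi₂ (Subtype.ext hxy)]
  exact ⟨⟨φ, hinj⟩, hφ⟩

/-- A rebel `Q` which arrows `(S₁, S₂)` makes `(S₁, S₂)` forced. -/
theorem forced_of_arrows {W U₁ U₂ : Type} [Fintype W] {Q : W → W → Prop} {S₁ : U₁ → U₁ → Prop}
    {S₂ : U₂ → U₂ → Prop} (hQ : IsRebel Q) (h : Arrows Q S₁ S₂) : Forced S₁ S₂ := by
  classical
  obtain ⟨c, hc⟩ := hQ.rel
  refine ⟨Fintype.card W, c, fun V _ T hT A hA => ?_⟩
  have hhas : Has Q T (A : Set V) := by
    by_contra hno
    exact hA (hc V T hT A hno)
  obtain ⟨f, hf, hf'⟩ := hhas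
  refine ⟨Finset.univ.map f, ?_, by simp, fun Y => ?_⟩
  · intro x hx
    obtain ⟨i, _, rfl⟩ := Finset.mem_map.1 hx
    exact hf i
  · rcases h {w | f w ∈ Y} with ⟨g, hg, hg'⟩ | ⟨g, hg, hg'⟩
    · refine Or.inl ⟨g.trans f, fun i => ⟨by simp, hg i⟩, fun i j => ?_⟩
      rw [hg', hf']; rfl
    · refine Or.inr ⟨g.trans f, fun i => ⟨by simp, hg i⟩, fun i j => ?_⟩
      rw [hg', hf']; rfl

/-- If `S` is a rebel then `(TT l, S)` is forced, witnessed by `S ⇒ S ⇒ ⋯ ⇒ S`. -/
theorem forced_TT {U : Type} [Fintype U] {S : U → U → Prop} (hS : IsRebel S) (l : ℕ) :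
    Forced (TT l) S := by
  classical
  obtain ⟨c, hc⟩ := hS.rel
  induction l with
  | zero =>
    refine ⟨0, 0, fun V _ T hT W _ => ⟨∅, by simp, by simp, fun Y => Or.inl ?_⟩⟩
    exact ⟨⟨fun i => i.elim0, fun i => i.elim0⟩, fun i => i.elim0, fun i => i.elim0⟩
  | succ l ih =>
    obtain ⟨N, d, h⟩ := ih
    refine ⟨N + Fintype.card U, (d + Fintype.card U) + c, fun V _ T hT W hW => ?_⟩
    have hhas : Has S T (W : Set V) := by
      by_contra hno
      exact hW ((hc V T hT W hno).mono (by omega))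
    obtain ⟨f, hf, hf'⟩ := hhas
    set X₀ : Finset V := Finset.univ.map f with hX₀
    have hX₀c : X₀.card = Fintype.card U := by simp [hX₀]
    have hX₀W : X₀ ⊆ W := by
      intro x hx
      obtain ⟨i, _, rfl⟩ := Finset.mem_map.1 hx
      exact hf i
    have hW' : ¬ DomIn T (W ∩ inN T X₀) d := by
      intro hd
      exact hW ((domIn_of_inN hT hX₀W hd).mono (by omega))
    obtain ⟨X₁, hX₁, hX₁c, hX₁a⟩ := h V T hT _ hW'
    refine ⟨X₁ ∪ X₀, ?_, ?_, fun Y => ?_⟩
    · intro x hx
      rcases Finset.mem_union.1 hx with hx | hx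
      · exact (Finset.mem_inter.1 (hX₁ hx)).1
      · exact hX₀W hx
    · exact (Finset.card_union_le _ _).trans (by omega)
    · by_cases hY : ∃ y ∈ X₀, y ∈ Y
      · obtain ⟨y, hyX, hyY⟩ := hY
        rcases hX₁a Y with h1 | h2
        · left
          obtain ⟨g, hg, hg'⟩ := h1
          have hgy : ∀ i, T (g i) y := fun i =>
            (mem_inN.1 (Finset.mem_inter.1 (hX₁ (hg i).1)).2).2 y hyX
          have hinj : Function.Injective (Fin.snoc (fun i => g i) y : Fin (l + 1) → V) := by
            intro i j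
            refine Fin.lastCases ?_ (fun i => ?_) i <;> refine Fin.lastCases ?_ (fun j => ?_) j
            · simp
            · simp only [Fin.snoc_last, Fin.snoc_castSucc]
              intro hh
              exact absurd hh.symm (hT.ne (hgy j))
            · simp only [Fin.snoc_last, Fin.snoc_castSucc]
              intro hh
              exact absurd hh (hT.ne (hgy i))
            · simp only [Fin.snoc_castSucc]
              intro hh
              rw [g.injective hh]
          refine ⟨⟨_, hinj⟩, ?_, ?_⟩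
          · intro i
            refine Fin.lastCases ?_ (fun i => ?_) i
            · simp only [Function.Embedding.coeFn_mk, Fin.snoc_last]
              exact ⟨by simp [hyX], hyY⟩
            · simp only [Function.Embedding.coeFn_mk, Fin.snoc_castSucc]
              have := hg i
              exact ⟨by simp [this.1], this.2⟩
          · intro i j
            refine Fin.lastCases ?_ (fun i => ?_) i <;> refine Fin.lastCases ?_ (fun j => ?_) j
            · simp [TT, hT.1]
            · simp only [Function.Embedding.coeFn_mk, Fin.snoc_last, Fin.snoc_castSucc, TT]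
              constructor
              · intro hh; exact absurd hh (not_lt.2 (Fin.le_last _))
              · intro hh; exact absurd hh (hT.asymm (hgy j))
            · simp only [Function.Embedding.coeFn_mk, Fin.snoc_last, Fin.snoc_castSucc, TT]
              exact ⟨fun _ => hgy i, fun _ => Fin.castSucc_lt_last i⟩
            · simp only [Function.Embedding.coeFn_mk, Fin.snoc_castSucc, TT,
                Fin.castSucc_lt_castSucc_iff]
              exact hg' i j
        · right
          exact h2.mono fun x hx => ⟨by simp [hx.1], hx.2⟩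
      · right
        push Not at hY
        refine ⟨f, fun i => ⟨by simp [hX₀], ?_⟩, hf'⟩
        exact hY _ (by simp [hX₀])

/-! ### Colourings and heroes -/

/-- The subtournament of `T` on `X` can be partitioned into `k` transitive sets. -/
def Col {V : Type} (T : V → V → Prop) (X : Set V) (k : ℕ) : Prop :=
  ∃ col : V → ℕ, (∀ a ∈ X, col a < k) ∧ ∀ a ∈ X, ∀ b ∈ X, ∀ d ∈ X, col a = col b → col b = col d →
    T a b → T b d → T a d

/-- The tournament `T` on `Fin n` is the union of `k` transitive subtournaments. -/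
def Colourable {n : ℕ} (T : Fin n → Fin n → Prop) (k : ℕ) : Prop :=
  ∃ col : Fin n → Fin k, ∀ a b d, col a = col b → col b = col d → T a b → T b d → T a d

/-- `H` is a hero: the chromatic number of `H`-free tournaments is bounded. -/
def IsHero {U : Type} (H : U → U → Prop) : Prop :=
  ∃ c : ℕ, ∀ (n : ℕ) (T : Fin n → Fin n → Prop), IsTournament T → ¬ Contains H T → Colourable T c

/-- Heroes in terms of subsets of the vertex set. -/
theorem IsHero.rel {U : Type} {S : U → U → Prop} (h : IsHero S) :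
    ∃ c : ℕ, ∀ (V : Type) (T : V → V → Prop), IsTournament T → ∀ W : Finset V,
      ¬ Has S T W → Col T W c := by
  classical
  obtain ⟨c, hc⟩ := h
  refine ⟨c, fun V T hT W hW => ?_⟩
  let e := W.equivFin
  let T' : Fin W.card → Fin W.card → Prop := fun i j => T (e.symm i).1 (e.symm j).1
  have hT' : IsTournament T' := by
    refine ⟨fun i => hT.1 _, fun i j hij => hT.2 _ _ fun h => hij ?_⟩
    exact e.symm.injective (Subtype.ext h)
  have hfree : ¬ Contains S T' := by
    rintro ⟨f, hf⟩
    refine hW ⟨⟨fun u => (e.symm (f u)).1, fun u v huv => ?_⟩, fun i => (e.symm (f i)).2, hf⟩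
    exact f.injective (e.symm.injective (Subtype.ext huv))
  obtain ⟨col, hcol⟩ := hc _ T' hT' hfree
  refine ⟨fun v => if hv : v ∈ W then (col (e ⟨v, hv⟩)).1 else 0, ?_, ?_⟩
  · intro a ha
    have ha' : a ∈ W := ha
    simp only [ha', dif_pos]
    exact (col (e ⟨a, ha'⟩)).2
  · intro a ha b hb d hd h1 h2 h3 h4
    have ha' : a ∈ W := ha
    have hb' : b ∈ W := hb
    have hd' : d ∈ W := hd
    simp only [ha', hb', hd', dif_pos] at h1 h2
    have := hcol (e ⟨a, ha'⟩) (e ⟨b, hb'⟩) (e ⟨d, hd'⟩) (Fin.ext h1) (Fin.ext h2)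
      (by simpa [T'] using h3) (by simpa [T'] using h4)
    simpa [T'] using this

/-- Large domination number forces a bounded size subtournament of large chromatic number
(Harutyunyan, Le, Thomassé, Wu). -/
theorem bounded_of_dom : ∀ k : ℕ, ∃ K N : ℕ, ∀ (V : Type) [Fintype V] (T : V → V → Prop),
    IsTournament T → ∀ W : Finset V, ¬ DomIn T W K →
      ∃ X : Finset V, X ⊆ W ∧ X.card ≤ N ∧ ¬ Col T (X : Set V) k := by
  classical
  intro k
  induction k with
  | zero =>
    refine ⟨0, 1, fun V _ T hT W hW => ?_⟩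
    have hne : W.Nonempty := by
      by_contra hne
      rw [Finset.not_nonempty_iff_eq_empty] at hne
      subst hne
      exact hW ⟨∅, by simp, by simp, by simp⟩
    obtain ⟨v, hv⟩ := hne
    refine ⟨{v}, by simpa using hv, by simp, ?_⟩
    rintro ⟨col, h1, -⟩
    exact absurd (h1 v (by simp)) (by omega)
  | succ k ih =>
    obtain ⟨K, N, h⟩ := ih
    set s : ℕ := K + 1 with hs
    set m : ℕ := (k + 1) * s + 1 with hm
    refine ⟨m, m + 2 ^ m * N, fun V _ T hT W hW => ?_⟩
    -- a minimum dominating set of `W`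
    have hex : ∃ c, DomIn T W c := ⟨W.card, W, subset_rfl, le_rfl, fun v hv hv' => absurd hv hv'⟩
    obtain ⟨c, hc, hcmin⟩ : ∃ c, DomIn T W c ∧ ∀ c' < c, ¬ DomIn T W c' :=
      ⟨Nat.find hex, Nat.find_spec hex, fun c' hc' => Nat.find_min hex hc'⟩
    have hmc : m < c := by
      by_contra hle
      exact hW (hc.mono (by omega))
    obtain ⟨B, hBW, hBc, hBdom⟩ := hc
    have hBc' : B.card = c := by
      by_contra hne
      exact hcmin B.card (by omega) ⟨B, hBW, le_rfl, hBdom⟩
    obtain ⟨W₀, hW₀B, hW₀m⟩ := Finset.exists_subset_card_eq (s := B) (n := m) (by omega)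
    have hA : ∀ S ∈ W₀.powersetCard s, ∃ A : Finset V, A ⊆ W ∩ inN T (B \ S) ∧ A.card ≤ N ∧
        ¬ Col T (A : Set V) k := by
      intro S hS
      obtain ⟨hSW, hSc⟩ := Finset.mem_powersetCard.1 hS
      apply h V T hT
      intro hd
      have h1 := domIn_of_inN hT ((Finset.sdiff_subset (s := B) (t := S)).trans hBW) hd
      have h2 : (B \ S).card = c - s := by
        rw [Finset.card_sdiff_of_subset (hSW.trans hW₀B), hBc', hSc]
      have h3 : s ≤ c := by
        have : s ≤ m := by
          rw [hm]; nlinarith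
        omega
      exact hcmin (K + (B \ S).card) (by omega) h1
    choose! A hA1 hA2 hA3 using hA
    refine ⟨W₀ ∪ (W₀.powersetCard s).biUnion A, ?_, ?_, ?_⟩
    · intro x hx
      rcases Finset.mem_union.1 hx with hx | hx
      · exact hBW (hW₀B hx)
      · obtain ⟨S, hS, hx⟩ := Finset.mem_biUnion.1 hx
        exact (Finset.mem_inter.1 (hA1 S hS hx)).1
    · refine (Finset.card_union_le _ _).trans ?_
      rw [hW₀m]
      have h1 : ((W₀.powersetCard s).biUnion A).card ≤ (W₀.powersetCard s).card * N :=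
        Finset.card_biUnion_le_card_mul _ _ _ hA2
      have h2 : (W₀.powersetCard s).card ≤ 2 ^ m := by
        rw [← hW₀m, ← Finset.card_powerset]
        exact Finset.card_le_card fun S hS =>
          Finset.mem_powerset.2 (Finset.mem_powersetCard.1 hS).1
      have h3 := Nat.mul_le_mul_right N h2
      omega
    · rintro ⟨col, hcol1, hcol2⟩
      -- a large monochromatic part of `W₀`
      obtain ⟨i, hi, hibig⟩ : ∃ i ∈ Finset.range (k + 1), s < (W₀.filter fun w => col w = i).card := by
        refine Finset.exists_lt_card_fiber_of_mul_lt_card_of_maps_to ?_ ?_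
        · intro a ha
          rw [Finset.mem_range]
          exact hcol1 a (by simp [ha])
        · rw [Finset.card_range, hW₀m]; omega
      set W' := W₀.filter fun w => col w = i with hW'
      have hW'X : ∀ w ∈ W', w ∈ W₀ ∧ col w = i := fun w hw => Finset.mem_filter.1 hw
      have hmemX : ∀ w ∈ W₀, w ∈ ((W₀ ∪ (W₀.powersetCard s).biUnion A : Finset V) : Set V) := by
        intro w hw
        simp [hw]
      -- the source of `W'`
      have htrans : ∀ a ∈ W', ∀ b ∈ W', ∀ d ∈ W', T a b → T b d → T a d := by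
        intro a ha b hb d hd
        exact hcol2 a (hmemX _ (hW'X a ha).1) b (hmemX _ (hW'X b hb).1) d (hmemX _ (hW'X d hd).1)
          (by rw [(hW'X a ha).2, (hW'X b hb).2]) (by rw [(hW'X b hb).2, (hW'X d hd).2])
      obtain ⟨w₀, hw₀, hw₀src⟩ : ∃ w₀ ∈ W', ∀ w ∈ W', w ≠ w₀ → T w₀ w := by
        have hgen : ∀ Z : Finset V, Z ⊆ W' → Z.Nonempty → ∃ w₀ ∈ Z, ∀ w ∈ Z, w ≠ w₀ → T w₀ w := by
          intro Z
          induction Z using Finset.induction_on with
          | empty => intro _ h; exact absurd h (by simp)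
          | insert z Z hz ih =>
            intro hZW _
            by_cases hZ : Z.Nonempty
            · obtain ⟨w, hw, hws⟩ := ih (fun x hx => hZW (Finset.mem_insert_of_mem hx)) hZ
              by_cases hzw : T z w
              · refine ⟨z, Finset.mem_insert_self _ _, fun x hx hxz => ?_⟩
                have hxZ : x ∈ Z := (Finset.mem_insert.1 hx).resolve_left hxz
                by_cases hxw : x = w
                · rw [hxw]; exact hzw
                · exact htrans z (hZW (Finset.mem_insert_self _ _)) w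
                    (hZW (Finset.mem_insert_of_mem hw)) x (hZW (Finset.mem_insert_of_mem hxZ)) hzw
                    (hws x hxZ hxw)
              · refine ⟨w, Finset.mem_insert_of_mem hw, fun x hx hxw => ?_⟩
                rcases Finset.mem_insert.1 hx with rfl | hx
                · exact hT.of_not hxw hzw
                · exact hws x hx hxw
            · rw [Finset.not_nonempty_iff_eq_empty] at hZ
              subst hZ
              refine ⟨z, by simp, fun x hx hxz => ?_⟩
              simp at hx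
              exact absurd hx hxz
        exact hgen W' subset_rfl (Finset.card_pos.1 (by omega))
      -- choose `S` in `W' \ {w₀}`
      obtain ⟨S, hSW, hSc⟩ := Finset.exists_subset_card_eq (s := W'.erase w₀) (n := s) (by
        rw [Finset.card_erase_of_mem hw₀]; omega)
      have hSmem : S ∈ W₀.powersetCard s := by
        refine Finset.mem_powersetCard.2 ⟨fun x hx => ?_, hSc⟩
        exact (hW'X x (Finset.mem_of_mem_erase (hSW hx))).1
      have hAX : ∀ a ∈ A S, a ∈ ((W₀ ∪ (W₀.powersetCard s).biUnion A : Finset V) : Set V) := by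
        intro a ha
        rw [Finset.mem_coe, Finset.mem_union]
        exact Or.inr (Finset.mem_biUnion.2 ⟨S, hSmem, ha⟩)
      have hik : i < k + 1 := Finset.mem_range.1 hi
      obtain ⟨a, haA, hai⟩ : ∃ a ∈ A S, col a = i := by
        by_contra hno
        push Not at hno
        apply hA3 S hSmem
        refine ⟨fun a => if col a = k then i else col a, ?_, ?_⟩
        · intro a ha
          have h1 := hcol1 a (hAX a ha)
          have h2 := hno a ha
          by_cases h3 : col a = k
          · simp only [h3, if_true]; omega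
          · simp only [h3, if_false]; omega
        · intro a ha b hb d hd h1 h2
          have ha' := hno a ha
          have hb' := hno b hb
          have hd' := hno d hd
          refine hcol2 a (hAX a ha) b (hAX b hb) d (hAX d hd) ?_ ?_
          · by_cases h3 : col a = k <;> by_cases h4 : col b = k
            · rw [h3, h4]
            · simp only [h3, h4, if_true, if_false] at h1; exact absurd h1.symm hb'
            · simp only [h3, h4, if_true, if_false] at h1; exact absurd h1 ha'
            · simpa only [h3, h4, if_false] using h1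
          · by_cases h3 : col b = k <;> by_cases h4 : col d = k
            · rw [h3, h4]
            · simp only [h3, h4, if_true, if_false] at h2; exact absurd h2.symm hd'
            · simp only [h3, h4, if_true, if_false] at h2; exact absurd h2 hb'
            · simpa only [h3, h4, if_false] using h2
      have haW := Finset.mem_inter.1 (hA1 S hSmem haA)
      have haI := mem_inN.1 haW.2
      have hw₀B : w₀ ∈ B \ S := by
        refine Finset.mem_sdiff.2 ⟨hW₀B (hW'X w₀ hw₀).1, fun hh => ?_⟩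
        exact (Finset.mem_erase.1 (hSW hh)).1 rfl
      have haw₀ : T a w₀ := haI.2 w₀ hw₀B
      have hsrc : ∀ b ∈ S, T w₀ b := by
        intro b hb
        obtain ⟨h1, h2⟩ := Finset.mem_erase.1 (hSW hb)
        exact hw₀src b h2 h1
      by_cases haB : a ∈ B
      · have haS : a ∈ S := by
          by_contra hh
          exact haI.1 (Finset.mem_sdiff.2 ⟨haB, hh⟩)
        exact hT.asymm haw₀ (hsrc a haS)
      · obtain ⟨b, hbB, hba⟩ := hBdom a haW.1 haB
        have hbS : b ∈ S := by
          by_contra hh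
          exact hT.asymm hba (haI.2 b (Finset.mem_sdiff.2 ⟨hbB, hh⟩))
        have hbW' := Finset.mem_of_mem_erase (hSW hbS)
        have hbw := hcol2 b (hmemX _ (hW'X b hbW').1) a (hAX a haA) w₀ (hmemX _ (hW'X w₀ hw₀).1)
          (by rw [(hW'X b hbW').2, hai]) (by rw [hai, (hW'X w₀ hw₀).2]) hba haw₀
        exact hT.asymm hbw (hsrc b hbS)

/-- Two heroes are forced together. -/
theorem forced_heroes {U₁ U₂ : Type} {H₁ : U₁ → U₁ → Prop} {H₂ : U₂ → U₂ → Prop}
    (h₁ : IsHero H₁) (h₂ : IsHero H₂) : Forced H₁ H₂ := by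
  classical
  obtain ⟨c₁, hc₁⟩ := h₁.rel
  obtain ⟨c₂, hc₂⟩ := h₂.rel
  obtain ⟨K, N, h⟩ := bounded_of_dom (c₁ + c₂)
  refine ⟨N, K, fun V _ T hT W hW => ?_⟩
  obtain ⟨X, hXW, hXN, hX⟩ := h V T hT W hW
  refine ⟨X, hXW, hXN, fun Y => ?_⟩
  by_contra hno
  push Not at hno
  obtain ⟨hno1, hno2⟩ := hno
  have e1 : ((X.filter fun x => x ∈ Y : Finset V) : Set V) = (X : Set V) ∩ Y := by
    ext x; simp
  have e2 : ((X.filter fun x => x ∉ Y : Finset V) : Set V) = (X : Set V) \ Y := by
    ext x; simp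
  obtain ⟨col₁, ha₁, hb₁⟩ := hc₁ V T hT (X.filter fun x => x ∈ Y) (by rw [e1]; exact hno1)
  obtain ⟨col₂, ha₂, hb₂⟩ := hc₂ V T hT (X.filter fun x => x ∉ Y) (by rw [e2]; exact hno2)
  rw [e1] at ha₁ hb₁
  rw [e2] at ha₂ hb₂
  apply hX
  refine ⟨fun v => if v ∈ Y then col₁ v else c₁ + col₂ v, ?_, ?_⟩
  · intro a ha
    by_cases hY : a ∈ Y
    · simp only [hY, if_true]
      have := ha₁ a ⟨ha, hY⟩
      omega
    · simp only [hY, if_false]
      have := ha₂ a ⟨ha, hY⟩
      omega
  · have key : ∀ a ∈ (X : Set V), ∀ b ∈ (X : Set V),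
        (if a ∈ Y then col₁ a else c₁ + col₂ a) = (if b ∈ Y then col₁ b else c₁ + col₂ b) →
        (a ∈ Y ∧ b ∈ Y ∧ col₁ a = col₁ b) ∨ (a ∉ Y ∧ b ∉ Y ∧ col₂ a = col₂ b) := by
      intro a ha b hb hab
      by_cases h3 : a ∈ Y <;> by_cases h4 : b ∈ Y
      · simp only [h3, h4, if_true] at hab
        exact Or.inl ⟨h3, h4, hab⟩
      · simp only [h3, h4, if_true, if_false] at hab
        have := ha₁ a ⟨ha, h3⟩
        omega
      · simp only [h3, h4, if_true, if_false] at hab
        have := ha₁ b ⟨hb, h4⟩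
        omega
      · simp only [h3, h4, if_false] at hab
        exact Or.inr ⟨h3, h4, by omega⟩
    intro a ha b hb d hd h1 h2 h3 h4
    rcases key a ha b hb h1 with ⟨p1, p2, p3⟩ | ⟨p1, p2, p3⟩ <;>
      rcases key b hb d hd h2 with ⟨q1, q2, q3⟩ | ⟨q1, q2, q3⟩
    · exact hb₁ a ⟨ha, p1⟩ b ⟨hb, p2⟩ d ⟨hd, q2⟩ p3 q3 h3 h4
    · exact absurd p2 q1
    · exact absurd q1 p2
    · exact hb₂ a ⟨ha, p1⟩ b ⟨hb, p2⟩ d ⟨hd, q2⟩ p3 q3 h3 h4

/-! ### Degenerate cases -/

theorem tri_contains {U₁ U₂ U₃ U₁' U₂' U₃' : Type} {A : U₁ → U₁ → Prop} {B : U₂ → U₂ → Prop}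
    {C : U₃ → U₃ → Prop} {A' : U₁' → U₁' → Prop} {B' : U₂' → U₂' → Prop}
    {C' : U₃' → U₃' → Prop} (hA : Contains A A') (hB : Contains B B') (hC : Contains C C') :
    Contains (Tri A B C) (Tri A' B' C') := by
  obtain ⟨f, hf⟩ := hA
  obtain ⟨g, hg⟩ := hB
  obtain ⟨h, hh⟩ := hC
  refine ⟨⟨Sum.map f (Sum.map g h), ?_⟩, ?_⟩
  · exact Function.Injective.sumMap f.injective (Function.Injective.sumMap g.injective h.injective)
  · rintro (a | b | c) (a' | b' | c')
    · exact hf a a'
    · exact Iff.rfl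
    · exact Iff.rfl
    · exact Iff.rfl
    · exact hg b b'
    · exact Iff.rfl
    · exact Iff.rfl
    · exact Iff.rfl
    · exact hh c c'

theorem contains_refl {U : Type} (S : U → U → Prop) : Contains S S :=
  ⟨Function.Embedding.refl U, fun _ _ => Iff.rfl⟩

theorem contains_of_isEmpty {U U' : Type} [IsEmpty U] (S : U → U → Prop) (S' : U' → U' → Prop) :
    Contains S S' :=
  ⟨⟨fun i => isEmptyElim i, fun i => isEmptyElim i⟩, fun i => isEmptyElim i⟩

theorem not_contains_TT_one {n : ℕ} {T : Fin n → Fin n → Prop} (hT : IsTournament T)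
    (h : ¬ Contains (TT 1) T) : n = 0 := by
  by_contra hn
  have : Nonempty (Fin n) := ⟨⟨0, Nat.pos_of_ne_zero hn⟩⟩
  obtain ⟨v⟩ := this
  apply h
  refine ⟨⟨fun _ => v, fun i j _ => Subsingleton.elim i j⟩, fun i j => ?_⟩
  have hij : i = j := Subsingleton.elim i j
  subst hij
  simp only [TT, lt_self_iff_false, false_iff]
  exact hT.1 v

theorem isRebel_TT_one : IsRebel (TT 1) := by
  refine ⟨0, fun n T hT h => ?_⟩
  have hn := not_contains_TT_one hT h
  subst hn
  exact ⟨∅, by simp, fun v => v.elim0⟩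

theorem isHero_TT_one : IsHero (TT 1) := by
  refine ⟨0, fun n T hT h => ?_⟩
  have hn := not_contains_TT_one hT h
  subst hn
  exact ⟨fun v => v, fun v => v.elim0⟩

theorem exists_nonempty_rebel {U : Type} [Fintype U] {S : U → U → Prop} (hS : IsRebel S) :
    ∃ (U' : Type) (_ : Fintype U') (_ : Nonempty U') (S' : U' → U' → Prop), IsRebel S' ∧
      Contains S S' := by
  rcases isEmpty_or_nonempty U with h | h
  · exact ⟨Fin 1, inferInstance, inferInstance, TT 1, isRebel_TT_one, contains_of_isEmpty S _⟩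
  · exact ⟨U, inferInstance, h, S, hS, contains_refl S⟩

theorem exists_nonempty_hero {U : Type} [Fintype U] {S : U → U → Prop} (hS : IsHero S) :
    ∃ (U' : Type) (_ : Fintype U') (_ : Nonempty U') (S' : U' → U' → Prop), IsHero S' ∧
      Contains S S' := by
  rcases isEmpty_or_nonempty U with h | h
  · exact ⟨Fin 1, inferInstance, inferInstance, TT 1, isHero_TT_one, contains_of_isEmpty S _⟩
  · exact ⟨U, inferInstance, h, S, hS, contains_refl S⟩

/-- If `S` is a rebel then so is `Δ(TT k, TT l, S)`. -/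
theorem rebel_tri_TT_TT {U : Type} [Fintype U] {S : U → U → Prop} (hS : IsRebel S) (k l : ℕ) :
    IsRebel (Tri (TT k) (TT l) S) := by
  obtain ⟨U', _, _, S', hS', hSS'⟩ := exists_nonempty_rebel hS
  have h1 := rebel_of_forced (forced_TT hS' (l + 1)) k
  refine h1.of_contains (tri_contains (contains_refl _) ?_ hSS')
  exact ⟨⟨Fin.castSucc, Fin.castSucc_injective l⟩, fun i j => by
    simp only [TT, Function.Embedding.coeFn_mk, Fin.castSucc_lt_castSucc_iff]⟩

/-- If `H₁` and `H₂` are heroes then `Δ(TT k, H₁, H₂)` is a rebel. -/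
theorem rebel_tri_heroes {U₁ U₂ : Type} [Fintype U₁] [Fintype U₂] {H₁ : U₁ → U₁ → Prop}
    {H₂ : U₂ → U₂ → Prop} (h₁ : IsHero H₁) (h₂ : IsHero H₂) (k : ℕ) :
    IsRebel (Tri (TT k) H₁ H₂) := by
  obtain ⟨U₁', _, _, H₁', h₁', hc₁⟩ := exists_nonempty_hero h₁
  obtain ⟨U₂', _, _, H₂', h₂', hc₂⟩ := exists_nonempty_hero h₂
  exact (rebel_of_forced (forced_heroes h₁' h₂') k).of_contains
    (tri_contains (contains_refl _) hc₁ hc₂)

end Pool.Agent.Hhelper54.Rebels
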